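import Pool.Agent.Lib.MP_144d21_co.PSI.Iface

/-!
# MP_144d21_co, project XU3, part PSI: module COUNT
-/

set_option autoImplicit false

namespace Pool.Agent.Xu.H86

open Finset Polynomial

theorem mem_AA0 {n D : ℕ} {x : (Fin n → ℕ) × ℕ} :
    x ∈ AA n (fun _ => 0) D ↔ x.2 + ∑ k, x.1 k ≤ D := by
  rw [mem_AA]
  simp

theorem card_AA_le (n D : ℕ) : (AA n (fun _ => 0) D).card ≤ (D + 1) ^ (n + 1) := by
  unfold AA
  refine (Finset.card_filter_le _ _).trans ?_
  rw [Finset.card_product, Fintype.card_piFinset_const, Finset.card_range, pow_succ]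

theorem card_AA_mono (n : ℕ) {D D' : ℕ} (h : D ≤ D') :
    (AA n (fun _ => 0) D).card ≤ (AA n (fun _ => 0) D').card :=
  Finset.card_le_card fun _ hx => mem_AA0.2 ((mem_AA0.1 hx).trans h)

theorem card_AA_pos (n D : ℕ) : 1 ≤ (AA n (fun _ => 0) D).card :=
  Finset.card_pos.2 ⟨(0, 0), mem_AA0.2 (by simp)⟩

theorem card_AA_beta {n : ℕ} (β : Fin n → ℕ) (D : ℕ) :
    (∏ k, (1 + β k)) * (AA n β D).card ≤ (AA n (fun _ => 0) (D + ∑ k, β k)).card := by
  have h1 : (∏ k, (1 + β k)) * (AA n β D).card =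
      ((Fintype.piFinset fun k => Finset.range (1 + β k)) ×ˢ AA n β D).card := by
    rw [Finset.card_product, Fintype.card_piFinset]
    simp
  rw [h1]
  refine Finset.card_le_card_of_injOn
    (fun y => (fun k => (1 + β k) * y.2.1 k + y.1 k, y.2.2 - ∑ k, β k * y.2.1 k)) ?_ ?_
  · rintro ⟨ε, a, r⟩ h
    rw [Finset.mem_coe, Finset.mem_product, Fintype.mem_piFinset] at h
    obtain ⟨h2, h3⟩ := h
    rw [mem_AA] at h3
    obtain ⟨h3, h4⟩ := h3
    rw [Finset.mem_coe, mem_AA0]
    simp only at h2 h3 h4 ⊢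
    have h5 : ∑ k, ε k ≤ ∑ k, β k := Finset.sum_le_sum fun k _ => by
      have := Finset.mem_range.1 (h2 k); omega
    have h6 : ∑ k, ((1 + β k) * a k + ε k) = ∑ k, a k + ∑ k, β k * a k + ∑ k, ε k := by
      rw [← Finset.sum_add_distrib, ← Finset.sum_add_distrib]
      refine Finset.sum_congr rfl fun k _ => ?_
      ring
    rw [h6]
    omega
  · rintro ⟨ε, a, r⟩ h ⟨ε', a', r'⟩ h' heq
    rw [Finset.mem_coe, Finset.mem_product, Fintype.mem_piFinset] at h h'
    obtain ⟨h2, h3⟩ := h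
    obtain ⟨h2', h3'⟩ := h'
    rw [mem_AA] at h3 h3'
    simp only [Prod.mk.injEq] at h2 h2' h3 h3' heq ⊢
    have h5 : ∀ k, a k = a' k ∧ ε k = ε' k := by
      intro k
      have h6 := congrFun heq.1 k
      have h7 := Finset.mem_range.1 (h2 k)
      have h8 := Finset.mem_range.1 (h2' k)
      have h9 : a k = a' k := by
        have e1 : ((1 + β k) * a k + ε k) / (1 + β k) = a k := by
          rw [Nat.mul_add_div (by omega), Nat.div_eq_of_lt h7, add_zero]
        have e2 : ((1 + β k) * a' k + ε' k) / (1 + β k) = a' k := by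
          rw [Nat.mul_add_div (by omega), Nat.div_eq_of_lt h8, add_zero]
        rw [← e1, ← e2, h6]
      refine ⟨h9, ?_⟩
      rw [h9] at h6
      omega
    have ha : a = a' := funext fun k => (h5 k).1
    have hε : ε = ε' := funext fun k => (h5 k).2
    subst ha
    refine ⟨hε, rfl, ?_⟩
    have := heq.2
    omega

theorem count : CountS := by
  intro n ι _ β hN
  classical
  have hconv : ∑ c, ∏ k, (1 / (1 + (β c k : ℝ))) = ∑ c, ∏ k, (1 + (β c k : ℝ))⁻¹ := by
    refine Finset.sum_congr rfl fun c _ => Finset.prod_congr rfl fun k _ => one_div _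
  rw [hconv]
  set S : ℝ := ∑ c, ∏ k, (1 + (β c k : ℝ))⁻¹ with hS
  set M : ℕ := ∑ c, ∑ k, β c k with hM
  have hS0 : 0 ≤ S := Finset.sum_nonneg fun c _ => Finset.prod_nonneg fun k _ => by positivity
  have hβ : ∀ c, ∑ k, β c k ≤ M := fun c =>
    Finset.single_le_sum (f := fun c => ∑ k, β c k) (fun i _ => Nat.zero_le _)
      (Finset.mem_univ c)
  have hstep : ∀ D, ((AA n (fun _ => 0) D).card : ℝ) ≤
      S * (AA n (fun _ => 0) (D + M)).card := by
    intro D
    have h1 := hN D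
    calc ((AA n (fun _ => 0) D).card : ℝ) ≤ ((∑ c, (AA n (β c) D).card : ℕ) : ℝ) := by
          exact_mod_cast h1
      _ = ∑ c, ((AA n (β c) D).card : ℝ) := by push_cast; rfl
      _ ≤ ∑ c, (∏ k, (1 + (β c k : ℝ))⁻¹) * (AA n (fun _ => 0) (D + M)).card := by
          refine Finset.sum_le_sum fun c _ => ?_
          have h2 := card_AA_beta (β c) D
          have h3 := card_AA_mono n (D := D + ∑ k, β c k) (D' := D + M)
            (Nat.add_le_add_left (hβ c) D)
          have h4 : ((∏ k, (1 + (β c k : ℝ))) * ((AA n (β c) D).card : ℝ)) ≤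
              (AA n (fun _ => 0) (D + M)).card := by exact_mod_cast h2.trans h3
          have h5 : (0 : ℝ) < ∏ k, (1 + (β c k : ℝ)) :=
            Finset.prod_pos fun k _ => by positivity
          rw [Finset.prod_inv_distrib, inv_mul_eq_div, le_div_iff₀ h5, mul_comm]
          exact h4
      _ = S * (AA n (fun _ => 0) (D + M)).card := by rw [← Finset.sum_mul]
  have hpow : ∀ k : ℕ, (1 : ℝ) ≤ S ^ k * (AA n (fun _ => 0) (k * M)).card := by
    intro k
    induction k with
    | zero =>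
      rw [pow_zero, one_mul, zero_mul]
      exact_mod_cast card_AA_pos n 0
    | succ k ih =>
      calc (1 : ℝ) ≤ S ^ k * (AA n (fun _ => 0) (k * M)).card := ih
        _ ≤ S ^ k * (S * (AA n (fun _ => 0) (k * M + M)).card) :=
            mul_le_mul_of_nonneg_left (hstep _) (pow_nonneg hS0 k)
        _ = S ^ (k + 1) * (AA n (fun _ => 0) ((k + 1) * M)).card := by
            rw [pow_succ, Nat.succ_mul]; ring
  by_contra hlt
  push Not at hlt
  have hlim := tendsto_pow_const_mul_const_pow_of_lt_one (n + 1) hS0 hlt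
  have hlim2 := hlim.const_mul (((M : ℝ) + 1) ^ (n + 1))
  rw [mul_zero] at hlim2
  have hev := (hlim2.eventually (gt_mem_nhds (show (0 : ℝ) < 1 by norm_num))).and
    (Filter.eventually_ge_atTop 1)
  obtain ⟨k, hk, hk1⟩ := hev.exists
  have h1 := hpow k
  have h2 : ((AA n (fun _ => 0) (k * M)).card : ℝ) ≤ ((k : ℝ) * M + 1) ^ (n + 1) := by
    exact_mod_cast card_AA_le n (k * M)
  have h3 : ((k : ℝ) * M + 1) ^ (n + 1) ≤ ((M : ℝ) + 1) ^ (n + 1) * (k : ℝ) ^ (n + 1) := by
    rw [← mul_pow]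
    refine pow_le_pow_left₀ (by positivity) ?_ _
    have : (1 : ℝ) ≤ k := by exact_mod_cast hk1
    nlinarith
  have h4 : S ^ k * ((AA n (fun _ => 0) (k * M)).card : ℝ) ≤
      ((M : ℝ) + 1) ^ (n + 1) * ((k : ℝ) ^ (n + 1) * S ^ k) := by
    calc S ^ k * ((AA n (fun _ => 0) (k * M)).card : ℝ) ≤ S ^ k * (((M : ℝ) + 1) ^ (n + 1) *
          (k : ℝ) ^ (n + 1)) := mul_le_mul_of_nonneg_left (h2.trans h3) (pow_nonneg hS0 k)
      _ = _ := by ring
  linarith

end Pool.Agent.Xu.H86
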