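import Pool.Agent.Lib.MP_144d21_co.PSI.Iface
import Pool.Agent.Lib.MP_144d21_co.ABS.Key

/-!
# MP_144d21_co, project XU3, part PSI: module CUBE
-/

set_option autoImplicit false

namespace Pool.Agent.Xu.H86

open Finset Polynomial

theorem sbt_one_eq_tr {R : Type} [CommRing R] {n : ℕ} (v : Fin n → R) :
    sbt v (1 : Matrix (Fin n) (Fin n) R) = MP_144d21_co.ABS.tr v := by
  unfold sbt MP_144d21_co.ABS.tr
  congr 1
  funext k
  rw [add_comm]
  congr 1
  rw [Finset.sum_eq_single k]
  · rw [Matrix.one_apply_eq, MvPolynomial.C_1, one_mul]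
  · intro l _ hl
    rw [Matrix.one_apply_ne (Ne.symm hl), MvPolynomial.C_0, zero_mul]
  · intro h
    exact absurd (Finset.mem_univ k) h

theorem cube : CubeS := by
  intro R _ _ n j d I P hd h a ha
  classical
  have h1 := MP_144d21_co.ABS.key hd n (fun k => k ∈ I) P j (by
    intro v hv m hm
    have h2 : (fun k => if k ∈ I.filter (fun k => v k = d) then d else 0) = v := by
      funext k
      rcases hv k with h3 | ⟨h3, h4⟩
      · rw [if_neg, h3]
        intro h5
        exact hd (by rw [← (mem_filter.1 h5).2, h3])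
      · rw [if_pos (mem_filter.2 ⟨h3, h4⟩), h4]
    have h3 := h (I.filter fun k => v k = d) (filter_subset _ _)
    rw [h2, sbt_one_eq_tr] at h3
    exact h3 m hm) a ha
  have h2 : MP_144d21_co.ABS.wt (fun k => k ∈ I) a = ∑ k ∈ I, a k := by
    unfold MP_144d21_co.ABS.wt
    rw [← Finset.sum_filter]
    congr 1
    ext k
    simp
  rw [h2] at h1
  exact h1

end Pool.Agent.Xu.H86
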